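import Pool.Agent.helper14.AV.Spec

/-!
# Project AV, row STP
-/

set_option autoImplicit false

namespace Pool.Agent.helper14.AV

theorem STP_id (P Q p r z z' : ℝ × ℝ) :
    D p r z' * (D P Q z - D P Q p) - D p r z * (D P Q z' - D P Q p) = D p z z' * (D P Q r - D P Q p) := by
  unfold D; ring

theorem STP_bary (a b p X Y z : ℝ × ℝ) :
    D p X Y * D a b z = D X Y z * D a b p + D p z Y * D a b X + D p X z * D a b Y := by
  unfold D; ring

theorem STP_left (a b : ℝ × ℝ) : D a b a = 0 := by unfold D; ring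
theorem STP_right (a b : ℝ × ℝ) : D a b b = 0 := by unfold D; ring
theorem STP_cyc (a b c : ℝ × ℝ) : D c a b = D a b c := by unfold D; ring
theorem STP_swap (a b c : ℝ × ℝ) : D a b c = - D a c b := by unfold D; ring

theorem STP_ne (P1 Q1 P2 Q2 p r z z' : ℝ × ℝ) (h1 : 0 < D p r z) (h2 : 0 < D p r z')
    (d1 : 0 < D P1 Q1 p) (d2 : 0 < D P2 Q2 p) (e1 : D P1 Q1 z = 0) (e2 : D P2 Q2 z' = 0)
    (f1 : 0 < D P1 Q1 z') (f2 : 0 < D P2 Q2 z) : D p z z' ≠ 0 := by
  intro h0
  have i1 := STP_id P1 Q1 p r z z'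
  have i2 := STP_id P2 Q2 p r z z'
  rw [h0, e1] at i1
  rw [h0, e2] at i2
  have a1 : D p r z * D P1 Q1 z' = (D p r z - D p r z') * D P1 Q1 p := by linarith
  have a2 : D p r z' * D P2 Q2 z = (D p r z' - D p r z) * D P2 Q2 p := by linarith
  have b1 : 0 < (D p r z - D p r z') * D P1 Q1 p := by rw [← a1]; exact mul_pos h1 f1
  have b2 : 0 < (D p r z' - D p r z) * D P2 Q2 p := by rw [← a2]; exact mul_pos h2 f2
  have c1 := (pos_iff_pos_of_mul_pos b1).mpr d1
  have c2 := (pos_iff_pos_of_mul_pos b2).mpr d2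
  linarith

theorem STP (hAMX : AMX_stmt) : STP_stmt := by
  classical
  intro ι _ P Q L p r t ht hcard hC hp hr
  -- all points
  have hmem : ∀ z, z ∈ L.image P ∪ L.image Q ↔ ∃ j ∈ L, ∃ b : Bool, z = st P Q (j, b) := by
    intro z
    rw [Finset.mem_union, Finset.mem_image, Finset.mem_image]
    constructor
    · rintro (⟨j, hj, rfl⟩ | ⟨j, hj, rfl⟩)
      · exact ⟨j, hj, true, by simp [st]⟩
      · exact ⟨j, hj, false, by simp [st]⟩
    · rintro ⟨j, hj, b, rfl⟩
      cases b
      · right; exact ⟨j, hj, by simp [st]⟩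
      · left; exact ⟨j, hj, by simp [st]⟩
  have hstr : ∀ j ∈ L, ∀ b, 0 < D p r (st P Q (j, b)) := by
    intro j hj b
    cases b
    · simpa [st] using (hr j hj).2
    · simpa [st] using (hr j hj).1
  have hself : ∀ j, ∀ b, D (P j) (Q j) (st P Q (j, b)) = 0 := by
    intro j b
    cases b
    · simpa [st] using STP_right (P j) (Q j)
    · simpa [st] using STP_left (P j) (Q j)
  have hoth : ∀ i ∈ L, ∀ j ∈ L, i ≠ j → ∀ b, 0 < D (P i) (Q i) (st P Q (j, b)) := by
    intro i hi j hj hij b
    cases b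
    · simpa [st] using (hC i hi j hj hij).2
    · simpa [st] using (hC i hi j hj hij).1
  have hdiff : ∀ i ∈ L, ∀ j ∈ L, i ≠ j → ∀ b b', st P Q (i, b) ≠ st P Q (j, b') := by
    intro i hi j hj hij b b' h
    have h1 := hoth i hi j hj hij b'
    rw [← h, hself] at h1
    exact lt_irrefl _ h1
  have hsf : ∀ j ∈ L, ∀ b, st P Q (j, b) ≠ fn P Q (j, b) := by
    intro j hj b h
    have h1 := hp j hj
    have h2 : P j = Q j := by
      cases b
      · simpa [st, fn] using h.symm
      · simpa [st, fn] using h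
    rw [h2] at h1
    have h3 : D (Q j) (Q j) p = 0 := by unfold D; ring
    rw [h3] at h1
    exact lt_irrefl _ h1
  have hfn : ∀ j, ∀ b, fn P Q (j, b) = st P Q (j, !b) := by
    intro j b
    cases b <;> simp [st, fn]
  have hne : ∀ z ∈ L.image P ∪ L.image Q, ∀ z' ∈ L.image P ∪ L.image Q, z ≠ z' → D p z z' ≠ 0 := by
    intro z hz z' hz' hzz
    obtain ⟨i, hi, b, rfl⟩ := (hmem z).mp hz
    obtain ⟨j, hj, b', rfl⟩ := (hmem z').mp hz'
    by_cases hij : i = j
    · subst hij
      have hd := hp i hi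
      cases b <;> cases b'
      · exact absurd rfl hzz
      · have : D p (Q i) (P i) = - D (P i) (Q i) p := by unfold D; ring
        simp only [st]
        simp only [Bool.false_eq_true, if_false, if_true]
        rw [this]
        intro h
        linarith
      · have : D p (P i) (Q i) = D (P i) (Q i) p := by unfold D; ring
        simp only [st]
        simp only [Bool.false_eq_true, if_false, if_true]
        rw [this]
        exact hd.ne'
      · exact absurd rfl hzz
    · exact STP_ne (P i) (Q i) (P j) (Q j) p r _ _ (hstr i hi b) (hstr j hj b') (hp i hi) (hp j hj)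
        (hself i b) (hself j b') (hoth i hi j hj hij b') (hoth j hj i hi (Ne.symm hij) b)
  obtain ⟨⟨X, hX, hX2⟩, ⟨Y, hY, hY2⟩⟩ := hAMX (L.image P ∪ L.image Q) p r
    ⟨P t, (hmem _).mpr ⟨t, ht, true, by simp [st]⟩⟩
    (fun z hz => by
      obtain ⟨j, hj, b, rfl⟩ := (hmem z).mp hz
      exact hstr j hj b) hne
  obtain ⟨h1, hh1, b1, rfl⟩ := (hmem X).mp hX
  obtain ⟨h2, hh2, b2, rfl⟩ := (hmem Y).mp hY
  have hin : ∀ j ∈ L, ∀ b, st P Q (j, b) ∈ L.image P ∪ L.image Q := fun j hj b =>
    (hmem _).mpr ⟨j, hj, b, rfl⟩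
  have hP : ∀ j, P j = st P Q (j, true) := fun j => by simp [st]
  have hQ : ∀ j, Q j = st P Q (j, false) := fun j => by simp [st]
  by_cases c1 : h1 = t
  · by_cases c2 : h2 = t
    · subst c1
      subst c2
      exfalso
      obtain ⟨j, hj, hjt⟩ : ∃ j ∈ L, j ≠ h2 := by
        have : 1 < L.card := by omega
        obtain ⟨a, ha, b, hb, hab⟩ := Finset.one_lt_card.mp this
        by_cases h : a = h2
        · exact ⟨b, hb, fun h' => hab (h.trans h'.symm)⟩
        · exact ⟨a, ha, h⟩
      have p1 : 0 < D p (st P Q (h2, b1)) (st P Q (j, true)) := hX2 _ (hin j hj true)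
        (hdiff j hj h2 hh1 hjt true b1)
      have p2 : D p (st P Q (h2, b2)) (st P Q (j, true)) < 0 := hY2 _ (hin j hj true)
        (hdiff j hj h2 hh1 hjt true b2)
      have hbb : b1 ≠ b2 := by
        rintro rfl
        linarith
      have p3 : 0 < D p (st P Q (h2, b1)) (st P Q (h2, b2)) := by
        apply hX2 _ (hin h2 hh1 b2)
        intro h
        rw [h] at p2
        linarith
      cases b1 <;> cases b2
      · exact hbb rfl
      · -- X = Q, Y = P
        rw [← hQ, ← hP] at p3
        have : D p (Q h2) (P h2) = - D (P h2) (Q h2) p := by unfold D; ring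
        rw [this] at p3
        have := hp h2 hh1
        linarith
      · -- X = P, Y = Q
        rw [← hP, ← hP] at p1
        rw [← hQ, ← hP] at p2
        have q1 := STP_bary (P j) (Q j) p (P h2) (Q h2) (P j)
        rw [STP_left, mul_zero] at q1
        have q2 := hC h2 hh1 j hj (Ne.symm hjt)
        have q3 := hC j hj h2 hh1 hjt
        have q4 := hp j hj
        have q5 : 0 < D p (P j) (Q h2) := by rw [STP_swap]; linarith
        have r1 := mul_pos q2.1 q4
        have r2 := mul_pos q5 q3.1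
        have r3 := mul_pos p1 q3.2
        linarith
      · exact hbb rfl
    · refine ⟨h2, hh2, c2, b2, -1, ?_, ?_⟩
      · rw [hfn]
        have := hY2 _ (hin h2 hh2 (!b2)) (by rw [← hfn]; exact (hsf h2 hh2 b2).symm)
        linarith
      · intro j hj hjh
        rw [hP j, hQ j]
        have u1 := hY2 _ (hin j hj true) (hdiff j hj h2 hh2 hjh true b2)
        have u2 := hY2 _ (hin j hj false) (hdiff j hj h2 hh2 hjh false b2)
        constructor <;> linarith
  · refine ⟨h1, hh1, c1, b1, 1, ?_, ?_⟩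
    · rw [hfn, one_mul]
      exact hX2 _ (hin h1 hh1 (!b1)) (by rw [← hfn]; exact (hsf h1 hh1 b1).symm)
    · intro j hj hjh
      rw [one_mul, one_mul]
      have u1 := hX2 _ (hin j hj true) (hdiff j hj h1 hh1 hjh true b1)
      have u2 := hX2 _ (hin j hj false) (hdiff j hj h1 hh1 hjh false b1)
      rw [← hP] at u1
      rw [← hQ] at u2
      exact ⟨u1, u2⟩

end Pool.Agent.helper14.AV
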